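import Pool.Agent.H37.Trl2

namespace Pool.Agent.Results.MP_bd4c56_lc.Yes

open Pool.Agent.H37.Trl

theorem result (S : Type) (A : TA S) (hA : Modular A.T) :
    ∃ B : TA S, Modular B.T ∧ B.lang = A.lang ∧ B.types ≤ 2 :=
  two_types A hA

end Pool.Agent.Results.MP_bd4c56_lc.Yes
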